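import Pool.Agent.X240.Gen.Bounds
import Pool.Agent.X282.LP.Asks

set_option autoImplicit false

/-! # Systems of `m` inequalities in `n` variables: programs and networks which test real formulas -/

namespace Pool.Agent.X240.LP.Rows

open Finset
open Pool.Agent.TH697.Form (IsProb)
open Pool.Agent.TH697.Row (ApproximatesOn)
open Pool.Agent.X282.LP (Row Small feasible)
open Pool.Agent.Y638.RF (Program Net Asks)

variable {m n N k : ℕ}

theorem asks' (hN : m = N + k + 1) (hn : n = k + 2) (i : Fin m) :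
    Asks (D := fun _ : Fin m => Row n) (Fin N × Fin k) (N * k) 0 (Small (m ^ 2)) feasible i := by
  subst hN hn
  obtain ⟨A, r, Q, R, h1, h2, h3, h4, h5⟩ := Pool.Agent.X282.LP.asks (N := N) (k := k) i
  refine ⟨A, r, Q, R, h1, h2, h3, fun t z j => ?_, h5⟩
  have hle : ((N ^ 2 : ℕ) : ℤ) ≤ (((N + k + 1) ^ 2 : ℕ) : ℤ) := by
    have : N ^ 2 ≤ (N + k + 1) ^ 2 := Nat.pow_le_pow_left (by omega) 2
    exact_mod_cast this
  obtain ⟨⟨d, hd1, hd2⟩, h6⟩ := h4 t z j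
  refine ⟨⟨d, hd1.trans hle, hd2⟩, fun j' => ?_⟩
  obtain ⟨d', hd1', hd2'⟩ := h6 j'
  exact ⟨d', hd1'.trans hle, hd2'⟩

theorem logb_le {x : ℝ} (hx : 4096 ≤ x) : Real.logb 2 x ≤ x / 336 := by
  have h2 := Real.log_two_gt_d9
  have h2' := Real.log_two_lt_d9
  have h0 : 0 < Real.log 2 := by linarith
  rw [Real.logb, div_le_iff₀ h0]
  have h1 : Real.log x = 12 * Real.log 2 + Real.log (x / 4096) := by
    have e : x = 2 ^ 12 * (x / 4096) := by ring
    rw [e, Real.log_mul (by norm_num) (by positivity), Real.log_pow]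
    push_cast
    congr 2
    ring
  have h3 := Real.log_le_sub_one_of_pos (by positivity : 0 < x / 4096)
  have h4 : x / 336 * (6931 / 10000) ≤ x / 336 * Real.log 2 :=
    mul_le_mul_of_nonneg_left (by linarith) (by positivity)
  rw [h1]
  linarith

theorem facts (hm : 4096 ≤ m) (hn : 3 ≤ n) (hnm : 2 * n ≤ m) :
    ∃ N k Λ : ℕ, m = N + k + 1 ∧ n = k + 2 ∧ (m : ℝ) * n ≤ 6 * (N * k : ℕ) ∧
      (N * k : ℕ) ≤ (m : ℝ) * n ∧ 1000 ≤ N * k ∧
      4 * (N * k) * (5 * (m * (N * k)) + 1) + 2 + m * (N * k) ≤ 2 ^ Λ ∧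
      (Λ : ℝ) ≤ 7 * Real.logb 2 m ∧ 12 ≤ Real.logb 2 m ∧ (Λ : ℝ) ≤ (N * k : ℕ) / 24 := by
  obtain ⟨k, hk⟩ : ∃ k, n = k + 2 := ⟨n - 2, by omega⟩
  obtain ⟨N, hN⟩ : ∃ N, m = N + k + 1 := ⟨m - (k + 1), by omega⟩
  have hm' : (4096 : ℝ) ≤ m := by exact_mod_cast hm
  have hl : 12 ≤ Real.logb 2 (m : ℝ) := by
    have h3 := Real.logb_le_logb_of_le (by norm_num : (1 : ℝ) < 2) (by norm_num)
      (by linarith : (2 : ℝ) ^ 12 ≤ m)
    rw [Real.logb_pow, Real.logb_self_eq_one (by norm_num)] at h3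
    push_cast at h3
    linarith
  have hcl : (Nat.clog 2 m : ℝ) ≤ Real.logb 2 m + 1 := by
    have h1 : 2 ^ (Nat.clog 2 m - 1) < m := Nat.pow_pred_clog_lt_self (by norm_num) (by omega)
    have h2 : ((2 : ℝ) ^ (Nat.clog 2 m - 1)) ≤ m := by exact_mod_cast h1.le
    have h3 := Real.logb_le_logb_of_le (by norm_num : (1 : ℝ) < 2) (by positivity) h2
    rw [Real.logb_pow, Real.logb_self_eq_one (by norm_num), mul_one] at h3
    have h4 : ((Nat.clog 2 m : ℕ) : ℝ) ≤ ((Nat.clog 2 m - 1 : ℕ) : ℝ) + 1 := by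
      have : Nat.clog 2 m ≤ Nat.clog 2 m - 1 + 1 := by omega
      exact_mod_cast this
    linarith
  have hNk1 : m * n ≤ 6 * (N * k) := by
    have h1 : m ≤ 2 * N := by omega
    have h2 : n ≤ 3 * k := by omega
    calc m * n ≤ 2 * N * (3 * k) := Nat.mul_le_mul h1 h2
      _ = 6 * (N * k) := by ring
  have hNk1' : (m : ℝ) * n ≤ 6 * (N * k : ℕ) := by exact_mod_cast hNk1
  have hNk2 : N * k ≤ m * n := Nat.mul_le_mul (by omega) (by omega)
  have hNk3 : 1000 ≤ N * k := by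
    have h1 : 1000 ≤ N := by omega
    have h2 : 1 ≤ k := by omega
    calc 1000 = 1000 * 1 := rfl
      _ ≤ N * k := Nat.mul_le_mul h1 h2
  have hpow : m ≤ 2 ^ Nat.clog 2 m := Nat.le_pow_clog (by norm_num) m
  have hΛ : ((6 * Nat.clog 2 m : ℕ) : ℝ) ≤ 7 * Real.logb 2 m := by
    push_cast
    linarith
  refine ⟨N, k, 6 * Nat.clog 2 m, hN, hk, hNk1', by exact_mod_cast hNk2, hNk3,
    ?_, hΛ, hl, ?_⟩
  · have h1 : (2 ^ Nat.clog 2 m) ^ 6 = 2 ^ (6 * Nat.clog 2 m) := by rw [← pow_mul]; ring_nf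
    rw [← h1]
    refine le_trans ?_ (Nat.pow_le_pow_left hpow 6)
    have h2 : N * k ≤ m * m := Nat.mul_le_mul (by omega) (by omega)
    obtain ⟨X, hX⟩ : ∃ X, X = N * k := ⟨_, rfl⟩
    rw [← hX] at h2 hNk3 ⊢
    have h4 : 4 * X * (5 * (m * X) + 1) + 2 + m * X = 20 * (m * (X * X)) + 4 * X + 2 + m * X := by
      ring
    have h5 : m * (X * X) ≤ m * ((m * m) * (m * m)) :=
      Nat.mul_le_mul_left _ (Nat.mul_le_mul h2 h2)
    have h6 : X * 1 ≤ X * (m * X) := Nat.mul_le_mul_left _ (by nlinarith)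
    have h7 : X * (m * X) = m * (X * X) := by ring
    have h8 : m * X * 1 ≤ m * X * X := Nat.mul_le_mul_left _ (by omega)
    have h9 : m * X * X = m * (X * X) := by ring
    have h10 : 4096 * (m * ((m * m) * (m * m))) ≤ m * (m * ((m * m) * (m * m))) :=
      Nat.mul_le_mul_right _ hm
    have h11 : m * (m * ((m * m) * (m * m))) = m ^ 6 := by ring
    rw [h4]
    omega
  · have h1 : (m : ℝ) * 3 ≤ m * n := by
      apply mul_le_mul_of_nonneg_left _ (by linarith)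
      exact_mod_cast hn
    have h2 := logb_le hm'
    linarith

/-- branching programs -/
theorem program_bound {c w : ℕ} (hm : 4096 ≤ m) (hn : 3 ≤ n) (hnm : 2 * n ≤ m) (hw : 1 ≤ w)
    {Ω : Type} [Fintype Ω] (μ : Ω → ℝ) (hμ : IsProb μ) (s : ℕ)
    (B : Ω → Program (Fin m) (fun _ => Row n) w (2 ^ c) s)
    (hB : ApproximatesOn μ (fun ω => (B ω).eval) (Small (m ^ 2)) feasible) :
    (m : ℝ) ^ 2 * n ≤ 13000 * w * (c * w + Real.logb 2 m) * s := by
  obtain ⟨N, k, Λ, h1, h2, h3, h4, h5, h6, h7, h8, h9⟩ := facts hm hn hnm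
  have hw' : (1 : ℝ) ≤ w := by exact_mod_cast hw
  have hc' : (0 : ℝ) ≤ c := Nat.cast_nonneg c
  have hs0 : (0 : ℝ) ≤ s := Nat.cast_nonneg s
  have hm' : (4096 : ℝ) ≤ m := by exact_mod_cast hm
  have hcT : Fintype.card (Fin N × Fin k) = N * k := by
    rw [Fintype.card_prod, Fintype.card_fin, Fintype.card_fin]
  have hcI : (univ : Finset (Fin m)).card = m := by rw [card_univ, Fintype.card_fin]
  have h := Pool.Agent.X240.Gen.rf_program hw μ hμ s B hB (I := univ) (T := Fin N × Fin k)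
    (K := N * k) (Λ := Λ) (fun i _ => asks' h1 h2 i) (by rw [hcT, hcI]; exact h6)
    (by rw [hcT]; exact h9)
  rw [hcT, hcI] at h
  have h10 : (m : ℝ) ^ 2 * n ≤ 6 * ((m : ℝ) * (N * k : ℕ)) := by
    have := mul_le_mul_of_nonneg_left h3 (by linarith : (0 : ℝ) ≤ m)
    have e : (m : ℝ) ^ 2 * n = m * (m * n) := by ring
    rw [e]
    linarith
  have h11 : (w : ℝ) * (3 + 12 * Λ + 2 * (w - 1) * c) ≤
      w * (85 * (c * w + Real.logb 2 m)) := by
    apply mul_le_mul_of_nonneg_left _ (by linarith)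
    have : 2 * ((w : ℝ) - 1) * c = 2 * (c * w) - 2 * c := by ring
    rw [this]
    have : (0 : ℝ) ≤ c * w := by positivity
    linarith
  have h12 := mul_le_mul_of_nonneg_right h11 hs0
  have e1 : 25 * (w : ℝ) * (3 + 12 * Λ + 2 * (w - 1) * c) * s =
    25 * (w * (3 + 12 * Λ + 2 * (w - 1) * c) * s) := by ring
  have e2 : 13000 * (w : ℝ) * (c * w + Real.logb 2 m) * s =
    13000 * (w * (c * w + Real.logb 2 m) * s) := by ring
  have e3 : (w : ℝ) * (85 * (c * w + Real.logb 2 m)) * s =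
    85 * (w * (c * w + Real.logb 2 m) * s) := by ring
  have h13 : (0 : ℝ) ≤ w * (c * w + Real.logb 2 m) * s := by positivity
  rw [e1] at h
  rw [e3] at h12
  rw [e2]
  linarith

/-- networks -/
theorem net_bound {c w : ℕ} (hm : 4096 ≤ m) (hn : 3 ≤ n) (hnm : 2 * n ≤ m) (hw : 1 ≤ w)
    {Ω : Type} [Fintype Ω] (μ : Ω → ℝ) (hμ : IsProb μ) (s : ℕ)
    (F : Ω → Net (Fin m) (fun _ => Row n) w (2 ^ c)) (hsz : ∀ ω, (F ω).size ≤ s)
    (hF : ApproximatesOn μ (fun ω => (F ω).eval) (Small (m ^ 2)) feasible ∨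
      ApproximatesOn μ (fun ω x => !(F ω).eval x) (Small (m ^ 2)) feasible) :
    (m : ℝ) ^ 2 * n ≤ 24000 * w * (√(m * n) + 71 * Real.logb 2 m + 2 * c * w) * s := by
  obtain ⟨N, k, Λ, h1, h2, h3, h4, h5, h6, h7, h8, h9⟩ := facts hm hn hnm
  have hw' : (1 : ℝ) ≤ w := by exact_mod_cast hw
  have hc' : (0 : ℝ) ≤ c := Nat.cast_nonneg c
  have hs0 : (0 : ℝ) ≤ s := Nat.cast_nonneg s
  have hm' : (4096 : ℝ) ≤ m := by exact_mod_cast hm
  have hcT : Fintype.card (Fin N × Fin k) = N * k := by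
    rw [Fintype.card_prod, Fintype.card_fin, Fintype.card_fin]
  have hcI : (univ : Finset (Fin m)).card = m := by rw [card_univ, Fintype.card_fin]
  have h := Pool.Agent.X240.Gen.rf_net hw μ hμ s F hsz hF (I := univ) (T := Fin N × Fin k)
    (K := N * k) (Λ := Λ) (fun i _ => asks' h1 h2 i) (by rw [hcT, hcI]; exact h6)
    (by rw [hcT]; omega)
  rw [hcT, hcI] at h
  have h10 : (m : ℝ) ^ 2 * n ≤ 6 * ((m : ℝ) * (N * k : ℕ)) := by
    have := mul_le_mul_of_nonneg_left h3 (by linarith : (0 : ℝ) ≤ m)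
    have e : (m : ℝ) ^ 2 * n = m * (m * n) := by ring
    rw [e]
    linarith
  have hsq : √((N * k : ℕ) : ℝ) ≤ √((m : ℝ) * n) := Real.sqrt_le_sqrt h4
  have h11 : (w : ℝ) * (√((N * k : ℕ) : ℝ) + (3 + 10 * Λ + 2 * (w - 1) * c)) ≤
      w * (√(m * n) + 71 * Real.logb 2 m + 2 * c * w) := by
    apply mul_le_mul_of_nonneg_left _ (by linarith)
    have : 2 * ((w : ℝ) - 1) * c = 2 * c * w - 2 * c := by ring
    rw [this]
    linarith
  have h12 := mul_le_mul_of_nonneg_right h11 hs0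
  have e1 : 4000 * (w : ℝ) * (√((N * k : ℕ) : ℝ) + (3 + 10 * Λ + 2 * (w - 1) * c)) * s =
    4000 * (w * (√((N * k : ℕ) : ℝ) + (3 + 10 * Λ + 2 * (w - 1) * c)) * s) := by ring
  have e2 : 24000 * (w : ℝ) * (√(m * n) + 71 * Real.logb 2 m + 2 * c * w) * s =
    24000 * (w * (√(m * n) + 71 * Real.logb 2 m + 2 * c * w) * s) := by ring
  rw [e1] at h
  rw [e2]
  linarith

end Pool.Agent.X240.LP.Rows
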