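import Pool.Agent.Y638.RF.Prog
import Pool.Agent.Y638.RF.NetGen

set_option autoImplicit false

/-! # Linear feasibility: every inequality can ask for the bits of a matrix -/

namespace Pool.Agent.X240.LP

open Finset
open Pool.Agent.TH697.Form (IsProb)
open Pool.Agent.TH697.Row (ApproximatesOn)

/-- A linear inequality `∑ j, a j * y j ≥ β` in `d` unknowns, with integral coefficients. -/
abbrev Ineq (d : ℕ) : Type := (Fin d → ℤ) × ℤ

/-- `y` satisfies the inequality -/
def Sat {d : ℕ} (a : Ineq d) (y : Fin d → ℝ) : Prop := (a.2 : ℝ) ≤ ∑ j, (a.1 j : ℝ) * y j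

open Classical in
/-- Is the system of linear inequalities solvable? -/
noncomputable def feasible {M d : ℕ} (x : Fin M → Ineq d) : Bool :=
  decide (∃ y : Fin d → ℝ, ∀ i, Sat (x i) y)

/-- All coefficients are `-1`, `0` or `1`. -/
def Small {M d : ℕ} (x : Fin M → Ineq d) : Prop :=
  ∀ i, (∀ j, |(x i).1 j| ≤ 1) ∧ |(x i).2| ≤ 1

variable {M d k : ℕ}

/-! ## the system -/

/-- `p_t ≤ ∑ q_j`, over the `j` with `z (t, j)` -/
def rowT (d : ℕ) (z : Fin k × Fin k → Bool) (t : Fin k) : Ineq d :=
  (fun c => if h : c.val < k then (if z (t, ⟨c.val, h⟩) then 1 else 0)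
    else if c.val = k + t.val then -1 else 0, 0)

/-- `q_j ≥ 0` -/
def rowQ (d : ℕ) (j : ℕ) : Ineq d := (fun c => if c.val = j then 1 else 0, 0)

/-- the question: `p_t ≥ 1 + ∑ q_j'`, over the `j' ≠ j` -/
def rowP (d k : ℕ) (s : Fin k × Fin k) : Ineq d :=
  (fun c => if c.val < k then (if c.val = s.2.val then 0 else -1)
    else if c.val = k + s.1.val then 1 else 0, 1)

/-- the system; the first inequality is `P` -/
def sys (M : ℕ) (P : Ineq d) (z : Fin k × Fin k → Bool) (a : Fin M) : Ineq d :=
  if a.val = 0 then P else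
    if h : a.val - 1 < k then rowT d z ⟨a.val - 1, h⟩ else
      if a.val < 2 * k + 1 then rowQ d (a.val - (k + 1)) else (fun _ => 0, 0)

theorem small_rowT (z : Fin k × Fin k → Bool) (t : Fin k) :
    (∀ j, |(rowT d z t).1 j| ≤ 1) ∧ |(rowT d z t).2| ≤ 1 := by
  refine ⟨fun j => ?_, by simp [rowT]⟩
  simp only [rowT]
  split_ifs <;> simp

theorem small_rowQ (j' : ℕ) : (∀ j, |(rowQ d j').1 j| ≤ 1) ∧ |(rowQ d j').2| ≤ 1 := by
  refine ⟨fun j => ?_, by simp [rowQ]⟩
  simp only [rowQ]
  split_ifs <;> simp

theorem small_rowP (s : Fin k × Fin k) :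
    (∀ j, |(rowP d k s).1 j| ≤ 1) ∧ |(rowP d k s).2| ≤ 1 := by
  refine ⟨fun j => ?_, by simp [rowP]⟩
  simp only [rowP]
  split_ifs <;> simp

theorem small_sys {P : Ineq d} (hP : (∀ j, |P.1 j| ≤ 1) ∧ |P.2| ≤ 1)
    (z : Fin k × Fin k → Bool) (a : Fin M) :
    (∀ j, |(sys M P z a).1 j| ≤ 1) ∧ |(sys M P z a).2| ≤ 1 := by
  unfold sys
  split_ifs with h1 h2 h3
  · exact hP
  · exact small_rowT z _
  · exact small_rowQ _
  · simp

/-- a solution, if the bit is one -/
def sol (d : ℕ) (z : Fin k × Fin k → Bool) (s : Fin k × Fin k) (c : Fin d) : ℝ :=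
  if c.val < k then (if c.val = s.2.val then 1 else 0)
    else if h : c.val - k < k then (if z (⟨c.val - k, h⟩, s.2) then 1 else 0) else 0

theorem sum_single {d : ℕ} (n : ℕ) (hn : n < d) (r : ℝ) :
    ∑ c : Fin d, (if c.val = n then r else 0) = r := by
  rw [Finset.sum_eq_single (⟨n, hn⟩ : Fin d)]
  · simp
  · intro c _ hc
    rw [if_neg]
    intro h
    exact hc (Fin.ext h)
  · intro h
    exact absurd (mem_univ _) h

theorem sat_P (hd : 2 * k ≤ d) (z : Fin k × Fin k → Bool) (s : Fin k × Fin k) (hs : z s = true) :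
    Sat (rowP d k s) (sol d z s) := by
  unfold Sat
  have h1 : ∀ c : Fin d, ((rowP d k s).1 c : ℝ) * sol d z s c =
      if c.val = k + s.1.val then 1 else 0 := by
    intro c
    have ht := s.1.isLt
    by_cases hc : c.val < k
    · simp only [rowP, sol, if_pos hc]
      rw [if_neg (by omega : ¬ c.val = k + s.1.val)]
      split_ifs <;> simp
    · simp only [rowP, sol, if_neg hc]
      by_cases hc2 : c.val = k + s.1.val
      · rw [if_pos hc2, dif_pos (by omega), if_pos hc2]
        have e : (⟨c.val - k, by omega⟩, s.2) = s := by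
          refine Prod.ext (Fin.ext ?_) rfl
          simp only
          omega
        rw [e, hs]
        simp
      · rw [if_neg hc2, if_neg hc2]
        simp
  rw [sum_congr rfl fun c _ => h1 c, sum_single _ (by have := s.1.isLt; omega)]
  simp [rowP]

theorem sat_T (hd : 2 * k ≤ d) (z : Fin k × Fin k → Bool) (s : Fin k × Fin k) (t : Fin k) :
    Sat (rowT d z t) (sol d z s) := by
  unfold Sat
  have h1 : ∀ c : Fin d, ((rowT d z t).1 c : ℝ) * sol d z s c =
      (if c.val = s.2.val then (if z (t, s.2) then 1 else 0) else 0) +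
        (if c.val = k + t.val then -(if z (t, s.2) then 1 else 0) else 0) := by
    intro c
    have ht := t.isLt
    have hj := s.2.isLt
    by_cases hc : c.val < k
    · simp only [rowT, sol, dif_pos hc, if_pos hc]
      rw [if_neg (by omega : ¬ c.val = k + t.val)]
      by_cases hc2 : c.val = s.2.val
      · have e : (⟨c.val, hc⟩ : Fin k) = s.2 := Fin.ext hc2
        rw [if_pos hc2, if_pos hc2, e]
        split_ifs <;> simp
      · rw [if_neg hc2, if_neg hc2]
        simp
    · simp only [rowT, sol, dif_neg hc, if_neg hc]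
      rw [if_neg (by omega : ¬ c.val = s.2.val)]
      by_cases hc2 : c.val = k + t.val
      · rw [if_pos hc2, dif_pos (by omega), if_pos hc2]
        have e : (⟨c.val - k, by omega⟩ : Fin k) = t := Fin.ext (by simp only; omega)
        rw [e]
        split_ifs <;> simp
      · rw [if_neg hc2, if_neg hc2]
        simp
  rw [sum_congr rfl fun c _ => h1 c, sum_add_distrib, sum_single _ (by have := s.2.isLt; omega),
    sum_single _ (by have := t.isLt; omega)]
  simp [rowT]

theorem sat_Q (z : Fin k × Fin k → Bool) (s : Fin k × Fin k) (j : ℕ) (hj : j < k) (hd : 2 * k ≤ d) :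
    Sat (rowQ d j) (sol d z s) := by
  unfold Sat
  have e : ((rowQ d j).2 : ℝ) = 0 := by simp [rowQ]
  rw [e]
  apply sum_nonneg
  intro c _
  simp only [rowQ, sol]
  split_ifs <;> simp

/-- the certificate of insolvability, if the bit is zero -/
theorem not_sat (hd : 2 * k ≤ d) (z : Fin k × Fin k → Bool) (s : Fin k × Fin k)
    (hs : z s = false) (y : Fin d → ℝ) (h1 : Sat (rowP d k s) y) (h2 : Sat (rowT d z s.1) y)
    (h3 : ∀ j < k, Sat (rowQ d j) y) : False := by
  have h4 : ∀ c : Fin d, c.val < k → 0 ≤ y c := by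
    intro c hc
    have h := h3 c.val hc
    unfold Sat at h
    have e : ∀ c' : Fin d, ((rowQ d c.val).1 c' : ℝ) * y c' = if c'.val = c.val then y c else 0 := by
      intro c'
      simp only [rowQ]
      by_cases hc' : c'.val = c.val
      · rw [if_pos hc', if_pos hc', Fin.ext hc']
        simp
      · rw [if_neg hc', if_neg hc']
        simp
    rw [sum_congr rfl fun c' _ => e c', sum_single _ c.isLt] at h
    simpa [rowQ] using h
  unfold Sat at h1 h2
  have h5 : ∑ c : Fin d, (((rowP d k s).1 c : ℝ) * y c + ((rowT d z s.1).1 c : ℝ) * y c) ≤ 0 := by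
    apply sum_nonpos
    intro c _
    have ht := s.1.isLt
    by_cases hc : c.val < k
    · simp only [rowP, rowT, if_pos hc, dif_pos hc]
      by_cases hc2 : c.val = s.2.val
      · have e : (s.1, (⟨c.val, hc⟩ : Fin k)) = s := Prod.ext rfl (Fin.ext hc2)
        rw [if_pos hc2, e, hs]
        simp
      · rw [if_neg hc2]
        have := h4 c hc
        split_ifs
        · push_cast; linarith
        · push_cast; linarith
    · simp only [rowP, rowT, if_neg hc, dif_neg hc]
      split_ifs <;> push_cast <;> linarith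
  rw [sum_add_distrib] at h5
  have e1 : ((rowP d k s).2 : ℝ) = 1 := by simp [rowP]
  have e2 : ((rowT d z s.1).2 : ℝ) = 0 := by simp [rowT]
  rw [e1] at h1
  rw [e2] at h2
  linarith

theorem sys_iff (hM : 2 * k + 1 ≤ M) (hd : 2 * k ≤ d) (z : Fin k × Fin k → Bool)
    (s : Fin k × Fin k) : (∃ y : Fin d → ℝ, ∀ a, Sat (sys M (rowP d k s) z a) y) ↔ z s = true := by
  constructor
  · rintro ⟨y, hy⟩
    by_contra hz
    rw [Bool.not_eq_true] at hz
    refine not_sat hd z s hz y ?_ ?_ ?_
    · have h := hy ⟨0, by omega⟩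
      unfold sys at h
      rwa [if_pos rfl] at h
    · have ht := s.1.isLt
      have h := hy ⟨s.1.val + 1, by omega⟩
      unfold sys at h
      simp only at h
      rw [if_neg (by omega), dif_pos (by omega)] at h
      have e : (⟨s.1.val + 1 - 1, by omega⟩ : Fin k) = s.1 := Fin.ext (by simp)
      rwa [e] at h
    · intro j hj
      have h := hy ⟨j + (k + 1), by omega⟩
      unfold sys at h
      simp only at h
      rw [if_neg (by omega), dif_neg (by omega), if_pos (by omega), Nat.add_sub_cancel] at h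
      exact h
  · intro hz
    refine ⟨sol d z s, fun a => ?_⟩
    unfold sys
    split_ifs with h1 h2 h3
    · exact sat_P hd z s hz
    · exact sat_T hd z s _
    · exact sat_Q z s _ (by omega) hd
    · unfold Sat
      simp

/-! ## every inequality can ask -/

/-- the other inequalities -/
def base (M d : ℕ) (hM : 0 < M) (i : Fin M) (z : Fin k × Fin k → Bool) : Fin M → Ineq d :=
  fun a => sys M (fun _ => 0, 0) z (Equiv.swap i ⟨0, hM⟩ a)

theorem update_base (hM : 0 < M) (i : Fin M) (z : Fin k × Fin k → Bool) (P : Ineq d) :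
    Function.update (base M d hM i z) i P = fun a => sys M P z (Equiv.swap i ⟨0, hM⟩ a) := by
  funext a
  by_cases ha : a = i
  · subst ha
    rw [Function.update_self, Equiv.swap_apply_left]
    simp [sys]
  · rw [Function.update_of_ne ha]
    unfold base sys
    have h : (Equiv.swap i (⟨0, hM⟩ : Fin M) a).val ≠ 0 := by
      intro h
      have h1 : Equiv.swap i (⟨0, hM⟩ : Fin M) a = ⟨0, hM⟩ := Fin.ext h
      have h2 : Equiv.swap i (⟨0, hM⟩ : Fin M) i = ⟨0, hM⟩ := Equiv.swap_apply_left _ _
      exact ha ((Equiv.swap i _).injective (h1.trans h2.symm))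
    rw [if_neg h, if_neg h]

theorem small_base (hM : 0 < M) (i : Fin M) (z : Fin k × Fin k → Bool) (s : Fin k × Fin k) :
    Small (Function.update (base M d hM i z) i (rowP d k s)) := by
  rw [update_base]
  intro a
  exact small_sys (small_rowP s) z _

theorem feasible_iff (hM : 2 * k + 1 ≤ M) (hd : 2 * k ≤ d) (i : Fin M) (z : Fin k × Fin k → Bool)
    (s : Fin k × Fin k) :
    feasible (Function.update (base M d (by omega) i z) i (rowP d k s)) = z s := by
  rw [Bool.eq_iff_iff, ← sys_iff hM hd z s]
  unfold feasible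
  rw [update_base]
  simp only [decide_eq_true_eq]
  constructor
  · rintro ⟨y, hy⟩
    refine ⟨y, fun a => ?_⟩
    have h := hy ((Equiv.swap i ⟨0, by omega⟩).symm a)
    simpa only [Equiv.apply_symm_apply] using h
  · rintro ⟨y, hy⟩
    exact ⟨y, fun a => hy _⟩

theorem asks (hM : 2 * k + 1 ≤ M) (hd : 2 * k ≤ d) (i : Fin M) :
    Pool.Agent.Y638.RF.Asks (D := fun _ : Fin M => Ineq d) (Fin k × Fin k) (k ^ 2) 0 Small feasible
      i := by
  classical
  refine ⟨univ.image (rowP d k), fun _ => 0, fun t _ => rowP d k t, base M d (by omega) i, ?_, ?_,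
    fun _ _ _ _ => rfl, fun t z => small_base (by omega) i z t, ?_⟩
  · refine card_image_le.trans (le_of_eq ?_)
    rw [card_univ, Fintype.card_prod, Fintype.card_fin, pow_two]
  · intro t z
    exact mem_image_of_mem _ (mem_univ t)
  · have h : ∀ z : Fin k × Fin k → Bool, (univ.filter (fun t =>
        feasible (Function.update (base M d (by omega) i z) i (rowP d k t)) ≠ z t)).card = 0 := by
      intro z
      rw [card_eq_zero, filter_eq_empty_iff]
      intro t _
      rw [feasible_iff hM hd]
      simp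
    simp [h]

end Pool.Agent.X240.LP
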