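import Pool.Agent.X240.LP.Asks
import Pool.Agent.X240.WF.Gen

set_option autoImplicit false

/-! # Linear feasibility: the bounds -/

namespace Pool.Agent.X240.LP

open Finset
open Pool.Agent.TH697.Form (IsProb)
open Pool.Agent.TH697.Row (ApproximatesOn)

variable {M d k : ℕ}

theorem facts (hk : 120 ≤ k) (hM : 2 * k + 1 ≤ M) (hM2 : M ≤ 2 ^ k) :
    7 ≤ Real.logb 2 (M : ℝ) ∧ Real.logb 2 (M : ℝ) ≤ k := by
  have h1 : (241 : ℝ) ≤ M := by exact_mod_cast (by omega : 241 ≤ M)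
  have h2 : (M : ℝ) ≤ 2 ^ k := by exact_mod_cast hM2
  constructor
  · have h3 := Real.logb_le_logb_of_le (by norm_num : (1 : ℝ) < 2) (by norm_num)
      (by linarith : (2 : ℝ) ^ 7 ≤ M)
    rw [Real.logb_pow, Real.logb_self_eq_one (by norm_num)] at h3
    push_cast at h3
    linarith
  · have h3 := Real.logb_le_logb_of_le (by norm_num : (1 : ℝ) < 2) (by linarith) h2
    rw [Real.logb_pow, Real.logb_self_eq_one (by norm_num), mul_one] at h3
    exact h3

theorem sizes {s : ℕ} (hk : 120 ≤ k) (hM : 2 * k + 1 ≤ M) (hs : s < M * k ^ 2) :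
    4 * k ^ 2 * (5 * s + 1) + 2 + s ≤ M ^ 6 := by
  have hkM : k ≤ M := by omega
  have h1 : k ^ 2 ≤ M ^ 2 := Nat.pow_le_pow_left hkM 2
  have h2 : M * k ^ 2 ≤ M * M ^ 2 := Nat.mul_le_mul_left _ h1
  have e1 : M * M ^ 2 = M ^ 3 := by ring
  rw [e1] at h2
  have h3 : 4 * k ^ 2 * (5 * s + 1) ≤ 4 * M ^ 2 * (5 * M ^ 3) :=
    Nat.mul_le_mul (Nat.mul_le_mul_left _ h1) (by omega)
  have e2 : 4 * M ^ 2 * (5 * M ^ 3) = 20 * M ^ 5 := by ring
  have h4 : M ^ 3 ≤ M ^ 5 := Nat.pow_le_pow_right (by omega) (by norm_num)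
  have h5 : 241 * M ^ 5 ≤ M ^ 6 := by
    calc 241 * M ^ 5 ≤ M * M ^ 5 := Nat.mul_le_mul_right _ (by omega)
      _ = M ^ 6 := by ring
  have h6 : 1 ≤ M ^ 5 := Nat.one_le_pow _ _ (by omega)
  omega

theorem card_T : ((Fintype.card (Fin k × Fin k) : ℕ) : ℝ) = (k : ℝ) ^ 2 := by
  rw [Fintype.card_prod, Fintype.card_fin]; push_cast; ring

theorem card_I : (((univ : Finset (Fin M)).card : ℕ) : ℝ) = (M : ℝ) := by
  rw [card_univ, Fintype.card_fin]

theorem logb_c (c : ℕ) : Real.logb 2 ((2 ^ c : ℕ) : ℝ) = c := by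
  push_cast
  rw [Real.logb_pow, Real.logb_self_eq_one (by norm_num), mul_one]

theorem arith {M k c w l s : ℝ} (hM : 0 ≤ M) (hk : 120 ≤ k) (hl : 7 ≤ l) (hl2 : l ≤ k)
    (hc : 0 ≤ c) (hw : 1 ≤ w) (hs : 0 ≤ s)
    (h : M * ((49 / 600 - 0) * k ^ 2 - 6 * l) ≤
      w * (3 + 12 * (6 * l) + 2 * (w - 1) * c) * s) :
    M * k ^ 2 ≤ 2500 * (c + l) * w ^ 2 * s := by
  have h1 : k ^ 2 / 32 ≤ (49 / 600 - 0) * k ^ 2 - 6 * l := by nlinarith
  have h2 : M * (k ^ 2 / 32) ≤ M * ((49 / 600 - 0) * k ^ 2 - 6 * l) :=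
    mul_le_mul_of_nonneg_left h1 hM
  have hcw : 0 ≤ c * w := mul_nonneg hc (by linarith)
  have hcl : 0 ≤ c + l := by linarith
  have h3 : 3 + 12 * (6 * l) + 2 * (w - 1) * c ≤ w * (73 * (c + l)) := by
    have h5 : 1 * l ≤ w * l := mul_le_mul_of_nonneg_right hw (by linarith)
    have e : 2 * (w - 1) * c = 2 * (c * w) - 2 * c := by ring
    have e2 : w * (73 * (c + l)) = 73 * (c * w) + 73 * (w * l) := by ring
    rw [e, e2]
    linarith
  have h4 : w * (3 + 12 * (6 * l) + 2 * (w - 1) * c) * s ≤ w * (w * (73 * (c + l))) * s :=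
    mul_le_mul_of_nonneg_right (mul_le_mul_of_nonneg_left h3 (by linarith)) hs
  have e3 : w * (w * (73 * (c + l))) * s = 73 * ((c + l) * w ^ 2 * s) := by ring
  have e4 : 2500 * (c + l) * w ^ 2 * s = 2500 * ((c + l) * w ^ 2 * s) := by ring
  have e5 : M * (k ^ 2 / 32) = M * k ^ 2 / 32 := by ring
  have h6 : 0 ≤ (c + l) * w ^ 2 * s := by positivity
  rw [e3] at h4
  rw [e4]
  rw [e5] at h2
  linarith

/-- branching programs which test real formulas -/
theorem program_bound {c w : ℕ} (hk : 120 ≤ k) (hM : 2 * k + 1 ≤ M) (hM2 : M ≤ 2 ^ k)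
    (hd : 2 * k ≤ d) (hw : 1 ≤ w) {Ω : Type} [Fintype Ω] (μ : Ω → ℝ) (hμ : IsProb μ) (s : ℕ)
    (B : Ω → Pool.Agent.Y638.RF.Program (Fin M) (fun _ => Ineq d) w (2 ^ c) s)
    (hB : ApproximatesOn μ (fun ω => (B ω).eval) Small feasible) :
    (M : ℝ) * k ^ 2 ≤ 2500 * (c + Real.logb 2 M) * w ^ 2 * s := by
  have hw' : (1 : ℝ) ≤ w := by exact_mod_cast hw
  have hc' : (0 : ℝ) ≤ c := Nat.cast_nonneg c
  have hs0 : (0 : ℝ) ≤ s := Nat.cast_nonneg s
  have hk' : (120 : ℝ) ≤ k := by exact_mod_cast hk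
  obtain ⟨hl1, hl2⟩ := facts hk hM hM2
  by_cases hs : M * k ^ 2 ≤ s
  · have h1 : (M : ℝ) * k ^ 2 ≤ s := by exact_mod_cast hs
    have h2 : (1 : ℝ) ≤ 2500 * (c + Real.logb 2 M) * w ^ 2 :=
      one_le_mul_of_one_le_of_one_le (by linarith) (one_le_pow₀ hw')
    exact h1.trans (le_mul_of_one_le_left hs0 h2)
  have hsz := sizes hk hM (by omega : s < M * k ^ 2)
  have h := Pool.Agent.Y638.RF.program_lower μ hμ s B Small feasible hB Nat.one_le_two_pow hw
    (k ^ 2) (M ^ 6) (le_trans (by gcongr <;> omega) hsz) 0 (univ : Finset (Fin M))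
    (T := Fin k × Fin k) (fun i _ => asks hM hd i)
  rw [Nat.cast_pow M 6, Real.logb_pow, card_I, card_T, logb_c] at h
  exact arith (Nat.cast_nonneg _) hk' hl1 hl2 hc' hw' hs0 (by exact_mod_cast h)

/-- nondeterministic networks which are guarded by real formulas -/
theorem net_bound {c w : ℕ} (hk : 120 ≤ k) (hM : 2 * k + 1 ≤ M) (hM2 : M ≤ 2 ^ k)
    (hd : 2 * k ≤ d) (hw : 1 ≤ w) {Ω : Type} [Fintype Ω] (μ : Ω → ℝ) (hμ : IsProb μ) (s : ℕ)
    (F : Ω → Pool.Agent.Y638.RF.Net (Fin M) (fun _ => Ineq d) w (2 ^ c))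
    (hsz : ∀ ω, (F ω).size ≤ s)
    (hF : ApproximatesOn μ (fun ω => (F ω).eval) Small feasible ∨
      ApproximatesOn μ (fun ω x => !(F ω).eval x) Small feasible) :
    (M : ℝ) * k ^ 2 ≤ 4000 * w * (k + 61 * Real.logb 2 M + 2 * c * w) * s := by
  have hw' : (1 : ℝ) ≤ w := by exact_mod_cast hw
  have hc' : (0 : ℝ) ≤ c := Nat.cast_nonneg c
  have hs0 : (0 : ℝ) ≤ s := Nat.cast_nonneg s
  have hk' : (120 : ℝ) ≤ k := by exact_mod_cast hk
  have hcw : (0 : ℝ) ≤ c * w := by positivity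
  obtain ⟨hl1, hl2⟩ := facts hk hM hM2
  by_cases hs : M * k ^ 2 ≤ s
  · have h1 : (M : ℝ) * k ^ 2 ≤ s := by exact_mod_cast hs
    have h2 : (1 : ℝ) ≤ 4000 * w * (k + 61 * Real.logb 2 M + 2 * c * w) :=
      one_le_mul_of_one_le_of_one_le (by linarith) (by linarith)
    exact h1.trans (le_mul_of_one_le_left hs0 h2)
  have hsz' := sizes hk hM (by omega : s < M * k ^ 2)
  have h := Pool.Agent.Y638.RF.net_bound_le μ hμ F Small feasible hF s hsz Nat.one_le_two_pow hw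
    (k ^ 2) (M ^ 6) (le_trans (by gcongr <;> omega) hsz') 0 (by norm_num)
    (univ : Finset (Fin M)) (T := Fin k × Fin k) (fun i _ => asks hM hd i) ((k : ℝ) ^ 2)
    (by nlinarith) (by rw [card_T])
  rw [Nat.cast_pow M 6, Real.logb_pow, card_I, logb_c, Real.sqrt_sq (by linarith)] at h
  refine h.trans (mul_le_mul_of_nonneg_right (mul_le_mul_of_nonneg_left ?_ (by positivity)) hs0)
  have e3 : 2 * ((w : ℝ) - 1) * c = 2 * c * w - 2 * c := by ring
  rw [e3]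
  push_cast
  linarith

theorem wf_asks (hM : 2 * k + 1 ≤ M) (hd : 2 * k ≤ d) (i : Fin M) :
    Pool.Agent.Y638.WF.Asks (D := fun _ : Fin M => Ineq d) (Fin k × Fin k) 0 Small feasible i := by
  classical
  refine ⟨Set.range (rowP d k), fun _ => 0, fun t _ => rowP d k t, base M d (by omega) i,
    fun t _ => ⟨t, rfl⟩, fun _ _ _ _ => rfl, ?_, ?_⟩
  · rintro _ ⟨s, rfl⟩ z
    exact small_base (by omega) i z s
  · have h : ∀ z : Fin k × Fin k → Bool, (univ.filter (fun t =>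
        feasible (Function.update (base M d (by omega) i z) i (rowP d k t)) ≠ z t)).card = 0 := by
      intro z
      rw [card_eq_zero, filter_eq_empty_iff]
      intro t _
      rw [feasible_iff hM hd]
      simp
    simp [h]

/-- branching programs which test integral formulas -/
theorem word_bound {c w v : ℕ} (hk : 120 ≤ k) (hM : 2 * k + 1 ≤ M) (hM2 : M ≤ 2 ^ k)
    (hd : 2 * k ≤ d) (hw : 1 ≤ w) {Ω : Type} [Fintype Ω] (μ : Ω → ℝ) (hμ : IsProb μ) (s : ℕ)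
    (B : Ω → Pool.Agent.Y638.WF.Program (Fin M) (fun _ => Ineq d) w (2 ^ c) (2 ^ v) Small s)
    (hB : ApproximatesOn μ (fun ω => (B ω).eval) Small feasible) :
    (M : ℝ) * k ^ 2 ≤ 400 * w * (v + c * w + Real.logb 2 M) * s := by
  have hw' : (1 : ℝ) ≤ w := by exact_mod_cast hw
  have hc' : (0 : ℝ) ≤ c := Nat.cast_nonneg c
  have hv' : (0 : ℝ) ≤ v := Nat.cast_nonneg v
  have hs0 : (0 : ℝ) ≤ s := Nat.cast_nonneg s
  have hk' : (120 : ℝ) ≤ k := by exact_mod_cast hk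
  have hcw : (0 : ℝ) ≤ c * w := by positivity
  obtain ⟨hl1, hl2⟩ := facts hk hM hM2
  by_cases hs : M * k ^ 2 ≤ s
  · have h1 : (M : ℝ) * k ^ 2 ≤ s := by exact_mod_cast hs
    have h2 : (1 : ℝ) ≤ w * (v + c * w + Real.logb 2 M) :=
      one_le_mul_of_one_le_of_one_le hw' (by linarith)
    nlinarith
  have h := Pool.Agent.X240.WF.wf_gen hw μ hμ s Small B feasible hB (univ : Finset (Fin M))
    (T := Fin k × Fin k) (fun i _ => wf_asks hM hd i) (3 * Real.logb 2 M) (by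
      have h6 : s + 2 ≤ M ^ 3 := by
        have h7 : k ^ 2 + 1 ≤ M ^ 2 := by nlinarith
        have h8 : M * (k ^ 2 + 1) ≤ M * M ^ 2 := Nat.mul_le_mul_left _ h7
        have e : M * M ^ 2 = M ^ 3 := by ring
        rw [e, mul_add, mul_one] at h8
        omega
      have h7 : ((s : ℝ) + 2) ≤ (M : ℝ) ^ 3 := by exact_mod_cast h6
      have h8 := Real.logb_le_logb_of_le (by norm_num : (1 : ℝ) < 2) (by positivity) h7
      rw [Real.logb_pow] at h8
      exact_mod_cast h8) (by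
      rw [card_T]
      nlinarith)
  rw [card_I, card_T] at h
  refine h.trans ?_
  have h6 : (w : ℝ) * (25 + 12 * v + 4 * (3 * Real.logb 2 M) + 2 * (w - 1) * c) ≤
      w * (16 * (v + c * w + Real.logb 2 M)) := by
    apply mul_le_mul_of_nonneg_left _ (by linarith)
    have : 2 * ((w : ℝ) - 1) * c = 2 * (c * w) - 2 * c := by ring
    rw [this]
    linarith
  have h7 := mul_le_mul_of_nonneg_right h6 hs0
  have e1 : 25 * (w : ℝ) * (25 + 12 * v + 4 * (3 * Real.logb 2 M) + 2 * (w - 1) * c) * s =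
    25 * (w * (25 + 12 * v + 4 * (3 * Real.logb 2 M) + 2 * (w - 1) * c) * s) := by ring
  have e2 : 400 * (w : ℝ) * (v + c * w + Real.logb 2 M) * s =
    25 * (w * (16 * (v + c * w + Real.logb 2 M)) * s) := by ring
  rw [e1, e2]
  linarith

end Pool.Agent.X240.LP
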