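import Pool.Agent.X240.LP.Bounds
import Pool.Agent.Y649.DG.Main
import Pool.Agent.Y649.DG.Gen

set_option autoImplicit false

/-! # Linear feasibility and formulas with determinant gates -/

namespace Pool.Agent.X240.LP

open Finset Pool.Agent.Y649.DG
open Pool.Agent.TH697.Form (IsProb)
open Pool.Agent.TH697.Row (ApproximatesOn)

variable {M d k : ℕ}

theorem det_bound {c w : ℕ} (hk : 120 ≤ k) (hM : 2 * k + 1 ≤ M) (hM2 : M ≤ 2 ^ k)
    (hd : 2 * k ≤ d) (hw : 1 ≤ w) {Ω : Type} [Fintype Ω] (μ : Ω → ℝ) (hμ : IsProb μ) (s : ℕ)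
    (F : Ω → Fml (Fin M) (fun _ => Ineq d) w (2 ^ c)) (hs : ∀ ω, (F ω).size ≤ s)
    (hF : ApproximatesOn μ (fun ω => (F ω).accepts) Small feasible) :
    (M : ℝ) ^ 2 * k ^ 2 ≤ 12000000 * w ^ 2 * (c * w + Real.logb 2 M) * s ^ 2 := by
  have hw' : (1 : ℝ) ≤ w := by exact_mod_cast hw
  have hc' : (0 : ℝ) ≤ c := Nat.cast_nonneg c
  have hk' : (120 : ℝ) ≤ k := by exact_mod_cast hk
  have hcw : (0 : ℝ) ≤ c * w := by positivity
  obtain ⟨hl1, hl2⟩ := facts hk hM hM2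
  have h3 : (1 : ℝ) ≤ 12000000 * w ^ 2 * (c * w + Real.logb 2 M) :=
    one_le_mul_of_one_le_of_one_le (by nlinarith [one_le_pow₀ (n := 2) hw']) (by linarith)
  by_cases hs' : M * k ^ 2 ≤ s
  · have h1 : (M : ℝ) * k ^ 2 ≤ s := by exact_mod_cast hs'
    have h2 : ((M : ℝ) * k ^ 2) ^ 2 ≤ (s : ℝ) ^ 2 := pow_le_pow_left₀ (by positivity) h1 2
    have h4 : (M : ℝ) ^ 2 * k ^ 2 ≤ ((M : ℝ) * k ^ 2) ^ 2 := by
      have e : ((M : ℝ) * k ^ 2) ^ 2 = (M : ℝ) ^ 2 * k ^ 2 * k ^ 2 := by ring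
      rw [e]
      exact le_mul_of_one_le_right (by positivity) (one_le_pow₀ (by linarith))
    have h5 := mul_le_mul_of_nonneg_right h3 (by positivity : (0 : ℝ) ≤ (s : ℝ) ^ 2)
    linarith
  have h := bound_sq bound μ hμ F _ _ hF s hs Nat.one_le_two_pow hw (k ^ 2) (M ^ 6)
    (sizes hk hM (by omega)) 0 (by norm_num) (univ : Finset (Fin M)) (T := Fin k × Fin k)
    (fun i _ => asks hM hd i) ((k : ℝ) ^ 2) (by nlinarith) (by rw [card_T])
    (31 * (c * w + Real.logb 2 M)) (by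
      rw [Nat.cast_pow M 6, Real.logb_pow, logb_c]
      have e : ((w : ℝ) - 1) * c = c * w - c := by ring
      rw [e]
      push_cast
      linarith)
  rw [card_I] at h
  refine h.trans ?_
  have h6 : (0 : ℝ) ≤ w ^ 2 * (c * w + Real.logb 2 M) * s ^ 2 := by positivity
  have e2 : 360000 * (w : ℝ) ^ 2 * (31 * (c * w + Real.logb 2 M)) * s ^ 2 =
    11160000 * (w ^ 2 * (c * w + Real.logb 2 M) * s ^ 2) := by ring
  have e3 : 12000000 * (w : ℝ) ^ 2 * (c * w + Real.logb 2 M) * s ^ 2 =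
    12000000 * (w ^ 2 * (c * w + Real.logb 2 M) * s ^ 2) := by ring
  rw [e2, e3]
  linarith

end Pool.Agent.X240.LP
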